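import Pool.Agent.W680.WH.Stm

/-! # Project WHH: the commutant of `T` -/

set_option autoImplicit false

open scoped ComplexConjugate InnerProductSpace
open ContinuousLinearMap Filter

namespace Pool.Agent.W436.WH

open Pool.Agent.W680.WH

noncomputable def xr (n : ℤ) : ℝ :=
  -((16 * (n : ℝ) + 8) / ((4 * (n : ℝ) + 1) * (4 * (n : ℝ) + 3)))

lemma ne1 (n : ℤ) : (4 * (n : ℝ) + 1) ≠ 0 := by
  intro h
  have : (4 * n + 1 : ℤ) = 0 := by exact_mod_cast h
  omega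

lemma ne3 (n : ℤ) : (4 * (n : ℝ) + 3) ≠ 0 := by
  intro h
  have : (4 * n + 3 : ℤ) = 0 := by exact_mod_cast h
  omega

lemma xr_eq (n : ℤ) : xr n = -(2 / (4 * (n : ℝ) + 1) + 2 / (4 * (n : ℝ) + 3)) := by
  unfold xr
  rw [div_add_div _ _ (ne1 n) (ne3 n)]
  congr 2
  ring

lemma abs_xr (n : ℤ) : |xr n| ≤ 4 := by
  rw [xr_eq, abs_neg]
  have h1 : (1 : ℝ) ≤ |4 * (n : ℝ) + 1| := by
    have : (1 : ℤ) ≤ |4 * n + 1| := Int.one_le_abs (by omega)
    exact_mod_cast this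
  have h3 : (1 : ℝ) ≤ |4 * (n : ℝ) + 3| := by
    have : (1 : ℤ) ≤ |4 * n + 3| := Int.one_le_abs (by omega)
    exact_mod_cast this
  have h2 : |2 / (4 * (n : ℝ) + 1)| ≤ 2 := by
    rw [abs_div, abs_of_pos (two_pos : (0 : ℝ) < 2), div_le_iff₀ (by linarith)]
    linarith
  have h4 : |2 / (4 * (n : ℝ) + 3)| ≤ 2 := by
    rw [abs_div, abs_of_pos (two_pos : (0 : ℝ) < 2), div_le_iff₀ (by linarith)]
    linarith
  have h5 := abs_add_le (2 / (4 * (n : ℝ) + 1)) (2 / (4 * (n : ℝ) + 3))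
  linarith

/-- bounded differences -/
lemma bdd_diff (k : ℤ) : ∃ C : ℝ, ∀ N : ℕ,
    |∑ n ∈ Finset.range N, (xr ((n : ℤ) + k) - xr n)| ≤ C := by
  have tel : ∀ (k : ℤ) (N : ℕ), ∑ n ∈ Finset.range N, (xr ((n : ℤ) + (k + 1)) - xr ((n : ℤ) + k)) =
      xr (N + k) - xr k := by
    intro k N
    induction N with
    | zero => simp
    | succ N ih =>
      rw [Finset.sum_range_succ, ih]
      have : (((N + 1 : ℕ) : ℤ) + k) = (N : ℤ) + (k + 1) := by push_cast; ring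
      rw [this]
      ring
  have hb : ∀ (k : ℤ) (N : ℕ), |xr ((N : ℤ) + k) - xr k| ≤ 8 := by
    intro k N
    have h1 := abs_xr ((N : ℤ) + k)
    have h2 := abs_xr k
    have h3 := abs_sub (xr ((N : ℤ) + k)) (xr k)
    linarith
  induction k using Int.induction_on with
  | zero => exact ⟨0, fun N => by simp⟩
  | succ k ih =>
    obtain ⟨C, hC⟩ := ih
    refine ⟨C + 8, fun N => ?_⟩
    have h1 : ∑ n ∈ Finset.range N, (xr ((n : ℤ) + ((k : ℤ) + 1)) - xr n) =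
        ∑ n ∈ Finset.range N, (xr ((n : ℤ) + k) - xr n) + (xr ((N : ℤ) + k) - xr k) := by
      rw [← tel, ← Finset.sum_add_distrib]
      refine Finset.sum_congr rfl fun n _ => ?_
      ring
    rw [h1]
    have h2 := abs_add_le (∑ n ∈ Finset.range N, (xr ((n : ℤ) + k) - xr n))
      (xr ((N : ℤ) + k) - xr k)
    have h3 := hC N
    have h4 := hb k N
    linarith
  | pred k ih =>
    obtain ⟨C, hC⟩ := ih
    refine ⟨C + 8, fun N => ?_⟩
    have h1 : ∑ n ∈ Finset.range N, (xr ((n : ℤ) + (-(k : ℤ) - 1)) - xr n) =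
        ∑ n ∈ Finset.range N, (xr ((n : ℤ) + -(k : ℤ)) - xr n) -
          (xr ((N : ℤ) + (-(k : ℤ) - 1)) - xr (-(k : ℤ) - 1)) := by
      rw [← tel, ← Finset.sum_sub_distrib]
      refine Finset.sum_congr rfl fun n _ => ?_
      have : (n : ℤ) + (-(k : ℤ) - 1 + 1) = (n : ℤ) + -(k : ℤ) := by ring
      rw [this]
      ring
    rw [h1]
    have h2 := abs_sub (∑ n ∈ Finset.range N, (xr ((n : ℤ) + -(k : ℤ)) - xr n))
      (xr ((N : ℤ) + (-(k : ℤ) - 1)) - xr (-(k : ℤ) - 1))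
    have h3 := hC N
    have h4 := hb (-(k : ℤ) - 1) N
    linarith

/-- the sum of the coefficients is unbounded -/
lemma unbdd (C : ℝ) : ∃ N : ℕ, C < |∑ n ∈ Finset.range N, xr (n : ℤ)| := by
  have h1 := Real.tendsto_sum_range_one_div_nat_succ_atTop
  obtain ⟨N, hN⟩ := (h1.eventually (eventually_gt_atTop (2 * C))).exists
  refine ⟨N, ?_⟩
  have h2 : ∑ n ∈ Finset.range N, xr (n : ℤ) ≤
      ∑ n ∈ Finset.range N, (-(1 / 2) * (1 / ((n : ℝ) + 1))) := by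
    refine Finset.sum_le_sum fun n _ => ?_
    rw [xr_eq]
    have h3 : (0 : ℝ) ≤ 2 / (4 * ((n : ℤ) : ℝ) + 1) := by positivity
    have h4 : (1 / 2 : ℝ) * (1 / ((n : ℝ) + 1)) ≤ 2 / (4 * ((n : ℤ) : ℝ) + 3) := by
      have h5 : (1 / 2 : ℝ) * (1 / ((n : ℝ) + 1)) = 2 / (4 * (n : ℝ) + 4) := by
        field_simp; ring
      rw [h5]
      push_cast
      exact div_le_div_of_nonneg_left (by norm_num) (by positivity) (by linarith)
    linarith
  rw [← Finset.mul_sum] at h2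
  have h5 : ∑ n ∈ Finset.range N, xr (n : ℤ) < -C := by linarith
  have h6 := neg_abs_le (∑ n ∈ Finset.range N, xr (n : ℤ))
  linarith

lemma co_X (h1 : S_OPA) (h2 : S_OPC) (f : E) (n : ℤ) :
    co (X f) (n + 1) = ((xr n : ℝ) : ℂ) * co f n := by
  obtain ⟨⟨_, _, hZ2Zs, _⟩, _, _, _⟩ := h1
  obtain ⟨_, hZ, _, hZ2, hadd, hsmul, _⟩ := h2
  have e1 : (4 * (n : ℂ) + 1) ≠ 0 := by exact_mod_cast ne1 n
  have e3 : (4 * (n : ℂ) + 3) ≠ 0 := by exact_mod_cast ne3 n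
  have hneg : ∀ (g : E) (m : ℤ), co (-g) m = -co g m := by
    intro g m
    have h3 := hsmul (-1) g m
    rw [neg_one_smul] at h3
    rw [h3]; ring
  have hQ : ∀ (g : E) (m : ℤ), co (Q g) (m + 1) = (2 / (4 * (m : ℂ) + 3)) * co g m := by
    intro g m
    have e4 : (4 * (m : ℂ) + 3) ≠ 0 := by exact_mod_cast ne3 m
    have h3 : Q g = Z g + -(Z2 g) := by
      unfold Q; rw [sub_apply]; abel
    rw [h3, hadd, hneg, hZ, hZ2]
    have h4 : m + 1 - 1 = m := by ring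
    rw [h4]
    have h5 : (4 * ((m + 1 : ℤ) : ℂ) - 1) = 4 * (m : ℂ) + 3 := by push_cast; ring
    have h6 : (4 * ((m + 1 : ℤ) : ℂ) - 3) = 4 * (m : ℂ) + 1 := by push_cast; ring
    rw [h5, h6]
    field_simp
    ring
  have hZs : ∀ (g : E) (m : ℤ), (4 * (m : ℂ) + 1) * co (Zs g) m =
      (4 * (m : ℂ) + 3) * co g (m + 1) := by
    intro g m
    have e4 : (4 * (m : ℂ) + 3) ≠ 0 := by exact_mod_cast ne3 m
    have h3 : Z2 (Zs g) = g := by
      have := congrArg (fun M : E →L[ℂ] E => M g) hZ2Zs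
      simpa using this
    have h4 := hZ2 (Zs g) (m + 1)
    rw [h3] at h4
    have h5 : (4 * ((m + 1 : ℤ) : ℂ) - 1) = 4 * (m : ℂ) + 3 := by push_cast; ring
    have h6 : (4 * ((m + 1 : ℤ) : ℂ) - 3) = 4 * (m : ℂ) + 1 := by push_cast; ring
    have h7 : m + 1 - 1 = m := by ring
    rw [h5, h6, h7] at h4
    rw [h4]
    field_simp
  have h3 : X f = -((2 : ℂ) • Q f + Q (Zs (Q f))) := by
    unfold X
    simp
  rw [h3, hneg, hadd, hsmul, hQ, hQ]
  have h4 := hZs (Q f) n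
  rw [hQ] at h4
  have h5 : co (Zs (Q f)) n = (2 / (4 * (n : ℂ) + 1)) * co f n := by
    have h6 : (4 * (n : ℂ) + 1) * co (Zs (Q f)) n = (4 * (n : ℂ) + 1) *
        ((2 / (4 * (n : ℂ) + 1)) * co f n) := by
      rw [h4]; field_simp
    exact mul_left_cancel₀ e1 h6
  rw [h5]
  unfold xr
  push_cast
  field_simp
  ring

/-- coordinates of the image of the basis -/
lemma co_shift (h1 : S_OPA) (h2 : S_OPC) (A : E →L[ℂ] E) (hA : A * Z = Z * A) (k : ℤ) (n : ℕ) :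
    co (A (eb n)) ((n : ℤ) + k) = co (A (eb 0)) k := by
  obtain ⟨_, _, ⟨hZe, _⟩, _⟩ := h1
  obtain ⟨_, hZ, _⟩ := h2
  induction n with
  | zero => simp
  | succ n ih =>
    have h3 : (((n + 1 : ℕ) : ℤ)) = (n : ℤ) + 1 := by push_cast; ring
    rw [h3, ← hZe]
    have h4 : A (Z (eb n)) = Z (A (eb n)) := by
      have := congrArg (fun M : E →L[ℂ] E => M (eb n)) hA
      simpa using this
    rw [h4, hZ]
    have h5 : (n : ℤ) + 1 + k - 1 = (n : ℤ) + k := by ring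
    rw [h5, ih]

theorem com (h1 : S_GRO) (h2 : S_OPA) (h3 : S_OPC) (h4 : S_BLA) (h5 : S_OM) : S_COM := by
  obtain ⟨bmul, bone, _, _, binj, _, bex⟩ := h4
  have pres : ∀ M : E2 →L[ℂ] E2, M * T = T * M → ∀ x : E2, x.snd = 0 → (M x).snd = 0 := by
    intro M hM x hx
    obtain ⟨C, hC⟩ := (h1 x).1 hx
    rw [h1]
    refine ⟨‖M‖ ^ 2 * C, fun N => ?_⟩
    have hc : Commute M (T ^ N) := (show Commute M T from hM).pow_right N
    have h6 : (T ^ N) (M x) = M ((T ^ N) x) := by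
      have := congrArg (fun L : E2 →L[ℂ] E2 => L x) hc.eq
      simpa using this.symm
    rw [h6]
    calc ‖M ((T ^ N) x)‖ ^ 2 ≤ (‖M‖ * ‖(T ^ N) x‖) ^ 2 :=
          pow_le_pow_left₀ (norm_nonneg _) (M.le_opNorm _) 2
      _ = ‖M‖ ^ 2 * ‖(T ^ N) x‖ ^ 2 := by ring
      _ ≤ ‖M‖ ^ 2 * (C * om N) := mul_le_mul_of_nonneg_left (hC N) (by positivity)
      _ = ‖M‖ ^ 2 * C * om N := by ring
  intro D hD
  have hDi : ((D⁻¹ : (E2 →L[ℂ] E2)ˣ) : E2 →L[ℂ] E2) * T = T * ((D⁻¹ : (E2 →L[ℂ] E2)ˣ) : E2 →L[ℂ] E2) := by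
    have : Commute (D : E2 →L[ℂ] E2) T := hD
    exact (this.units_inv_left).eq
  obtain ⟨A, B, A1, hDe⟩ := bex D (pres D hD)
  obtain ⟨A', B', A1', hDe'⟩ := bex _ (pres _ hDi)
  have hm1 : A * A' = 1 := by
    have h := D.mul_inv
    rw [hDe, hDe', bmul, ← bone] at h
    exact (binj _ _ _ _ _ _ h).1
  have hm2 : A' * A = 1 := by
    have h := D.inv_mul
    rw [hDe, hDe', bmul, ← bone] at h
    exact (binj _ _ _ _ _ _ h).1
  have hT := hD
  rw [hDe] at hT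
  unfold T at hT
  rw [bmul, bmul] at hT
  obtain ⟨hAZ, hBZ, hA1Z⟩ := binj _ _ _ _ _ _ hT
  have hA1 : A1 = A := by
    have hco := h3
    have hop := h2
    obtain ⟨_, _, ⟨hZe, _, _, _, _, hXe⟩, _⟩ := hop
    obtain ⟨ceb, cZ, _, _, cadd, csmul, cnorm, csum, cext, _, _, _, _, _, _, _, _, clast⟩ := hco
    refine clast A1 A hA1Z hAZ (cext _ _ fun k => ?_)
    by_contra hne
    -- the recursion
    have hrec : ∀ n : ℕ, co (B (eb ((n : ℤ) + 1))) ((n : ℤ) + 1 + k) - co (B (eb n)) ((n : ℤ) + k) =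
        co (A1 (eb 0)) k * ((xr ((n : ℤ) + k) : ℝ) : ℂ) - co (A (eb 0)) k * ((xr n : ℝ) : ℂ) := by
      intro n
      have h6 : A (X (eb n)) + B (eb ((n : ℤ) + 1)) = Z (B (eb n)) + X (A1 (eb n)) := by
        have := congrArg (fun M : E →L[ℂ] E => M (eb n)) hBZ
        simpa [hZe] using this
      have h7 : co (A (X (eb n)) + B (eb ((n : ℤ) + 1))) ((n : ℤ) + 1 + k) =
          co (Z (B (eb n)) + X (A1 (eb n))) ((n : ℤ) + 1 + k) := by rw [h6]
      rw [cadd, cadd, cZ] at h7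
      have h8 : (n : ℤ) + 1 + k - 1 = (n : ℤ) + k := by ring
      have h9 : (n : ℤ) + 1 + k = ((n : ℤ) + k) + 1 := by ring
      rw [h8] at h7
      have h10 : co (X (A1 (eb n))) ((n : ℤ) + 1 + k) =
          ((xr ((n : ℤ) + k) : ℝ) : ℂ) * co (A1 (eb 0)) k := by
        rw [h9, co_X h2 h3, co_shift h2 h3 A1 hA1Z]
      have h11 : co (A (X (eb n))) ((n : ℤ) + 1 + k) = ((xr n : ℝ) : ℂ) * co (A (eb 0)) k := by
        rw [hXe, map_smul, csmul]
        have h12 := co_shift h2 h3 A hAZ k (n + 1)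
        have h13 : (((n + 1 : ℕ) : ℤ)) = (n : ℤ) + 1 := by push_cast; ring
        rw [h13] at h12
        rw [h12]
        unfold xr
        push_cast
        ring
      rw [h10, h11] at h7
      linear_combination h7
    -- the bound
    have hbd : ∀ n : ℕ, ‖co (B (eb n)) ((n : ℤ) + k)‖ ^ 2 ≤ ‖B‖ ^ 2 * om k := by
      intro n
      have h6 : om ((n : ℤ) + k) * ‖co (B (eb n)) ((n : ℤ) + k)‖ ^ 2 ≤ ‖B (eb n)‖ ^ 2 := by
        rw [cnorm]
        exact (csum (B (eb n))).le_tsum ((n : ℤ) + k)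
          (fun j _ => mul_nonneg (om_pos j).le (by positivity))
      have h7 : ‖eb (n : ℤ)‖ ^ 2 = om n := by
        rw [cnorm, tsum_eq_single (n : ℤ)]
        · rw [ceb]; simp
        · intro m hm
          rw [ceb, if_neg hm]; simp
      have h8 : ‖B (eb n)‖ ^ 2 ≤ ‖B‖ ^ 2 * om n := by
        calc ‖B (eb n)‖ ^ 2 ≤ (‖B‖ * ‖eb (n : ℤ)‖) ^ 2 :=
              pow_le_pow_left₀ (norm_nonneg _) (B.le_opNorm _) 2
          _ = ‖B‖ ^ 2 * om n := by rw [mul_pow, h7]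
      have h9 : om (n : ℤ) ≤ om ((n : ℤ) + k) * om k := by
        have := h5.2.2.1 ((n : ℤ) + k) (-k)
        rw [om_neg] at this
        have h10 : (n : ℤ) + k + -k = n := by ring
        rwa [h10] at this
      have h10 : om ((n : ℤ) + k) * ‖co (B (eb n)) ((n : ℤ) + k)‖ ^ 2 ≤
          om ((n : ℤ) + k) * (‖B‖ ^ 2 * om k) := by
        calc _ ≤ ‖B‖ ^ 2 * om n := h6.trans h8
          _ ≤ ‖B‖ ^ 2 * (om ((n : ℤ) + k) * om k) :=
              mul_le_mul_of_nonneg_left h9 (by positivity)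
          _ = _ := by ring
      exact le_of_mul_le_mul_left h10 (om_pos _)
    -- the sum
    have hsum : ∀ N : ℕ, co (B (eb N)) ((N : ℤ) + k) - co (B (eb 0)) k =
        co (A1 (eb 0)) k * ((∑ n ∈ Finset.range N, (xr ((n : ℤ) + k) - xr n) : ℝ) : ℂ) +
        (co (A1 (eb 0)) k - co (A (eb 0)) k) * ((∑ n ∈ Finset.range N, xr n : ℝ) : ℂ) := by
      intro N
      induction N with
      | zero => simp
      | succ N ih =>
        have h6 := hrec N
        have h13 : (((N + 1 : ℕ) : ℤ)) = (N : ℤ) + 1 := by push_cast; ring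
        rw [h13, Finset.sum_range_succ, Finset.sum_range_succ]
        push_cast at h6 ih ⊢
        linear_combination h6 + ih
    obtain ⟨C, hC⟩ := bdd_diff k
    obtain ⟨c, hc⟩ : ∃ c : ℝ, c = Real.sqrt (‖B‖ ^ 2 * om k) := ⟨_, rfl⟩
    have hbd' : ∀ n : ℕ, ‖co (B (eb n)) ((n : ℤ) + k)‖ ≤ c := by
      intro n
      rw [hc]
      exact Real.le_sqrt_of_sq_le (hbd n)
    have hpos : 0 < ‖co (A1 (eb 0)) k - co (A (eb 0)) k‖ := by
      rw [norm_pos_iff]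
      exact sub_ne_zero.2 hne
    obtain ⟨N, hN⟩ := unbdd ((2 * c + ‖co (A1 (eb 0)) k‖ * C) /
      ‖co (A1 (eb 0)) k - co (A (eb 0)) k‖)
    rw [div_lt_iff₀ hpos] at hN
    have h6 := hsum N
    have h7 : (co (A1 (eb 0)) k - co (A (eb 0)) k) * ((∑ n ∈ Finset.range N, xr n : ℝ) : ℂ) =
        co (B (eb N)) ((N : ℤ) + k) - co (B (eb 0)) k -
        co (A1 (eb 0)) k * ((∑ n ∈ Finset.range N, (xr ((n : ℤ) + k) - xr n) : ℝ) : ℂ) := by
      rw [h6]; ring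
    have h8 := congrArg norm h7
    rw [norm_mul, Complex.norm_real, Real.norm_eq_abs] at h8
    have h9 : ‖co (B (eb N)) ((N : ℤ) + k) - co (B (eb 0)) k -
        co (A1 (eb 0)) k * ((∑ n ∈ Finset.range N, (xr ((n : ℤ) + k) - xr n) : ℝ) : ℂ)‖ ≤
        c + c + ‖co (A1 (eb 0)) k‖ * C := by
      refine (norm_sub_le _ _).trans (add_le_add ((norm_sub_le _ _).trans (add_le_add (hbd' N) ?_)) ?_)
      · have := hbd' 0
        simpa using this
      · rw [norm_mul, Complex.norm_real, Real.norm_eq_abs]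
        exact mul_le_mul_of_nonneg_left (hC N) (norm_nonneg _)
    rw [← h8] at h9
    have h10 : |∑ n ∈ Finset.range N, xr (n : ℤ)| * ‖co (A1 (eb 0)) k - co (A (eb 0)) k‖ =
      ‖co (A1 (eb 0)) k - co (A (eb 0)) k‖ * |∑ n ∈ Finset.range N, xr (n : ℤ)| := mul_comm _ _
    rw [h10] at hN
    linarith
  rw [hA1] at hDe
  exact ⟨⟨A, A', hm1, hm2⟩, B, hDe⟩

end Pool.Agent.W436.WH
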